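import Pool.Agent.H71.EQ.Targets

/-!
Row PRD of the board EQ: the product of the local densities.
-/

set_option autoImplicit false

open Filter
open scoped Topology

namespace Pool.Agent.H57.EQR

open Pool.Agent.H71.EQ

lemma cnt_nonneg (m p : ℕ) (hm : 1 ≤ m) (hp : p.Prime) : 0 ≤ cnt m p := by
  have h2 : (2 : ℝ) ≤ p := by exact_mod_cast hp.two_le
  have hq : (1 : ℝ) ≤ (p : ℝ) - 1 := by linarith
  unfold cnt
  refine div_nonneg ?_ (by linarith)
  have h3 : (p : ℝ) - 1 ≤ ((p : ℝ) - 1) ^ m := le_self_pow₀ hq (by omega)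
  rcases neg_one_pow_eq_or ℝ m with h | h <;> rw [h] <;> linarith

/-- the numerator of the local density -/
noncomputable def nS (k : ℕ) (P e : ℝ) : ℝ :=
  (P - 1) ^ (k + 1) + (k + 1) * (P - 1) ^ (k + 1) / P + e * (P - 1) * (1 - (k + 1) * (P - 1) / P)

lemma wloc_eq (k p : ℕ) (hp : p.Prime) :
    wloc (k + 1) p 0 = nS k p ((-1) ^ (k + 1)) / (p : ℝ) ^ (k + 1) := by
  have h0 : (p : ℝ) ≠ 0 := by exact_mod_cast hp.ne_zero
  unfold wloc cnt nS
  rw [if_pos rfl]
  simp only [Nat.add_sub_cancel]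
  push_cast
  rw [pow_succ (-1 : ℝ) k]
  field_simp
  ring

lemma pow_bd (k : ℕ) {q : ℝ} (hq : 0 ≤ q) :
    q ^ (k + 1) + (k + 1) * q ^ k ≤ (q + 1) ^ (k + 1) := by
  induction k with
  | zero => simp
  | succ k ih =>
    have h1 := mul_le_mul_of_nonneg_left ih (by linarith : 0 ≤ q + 1)
    have h2 : 0 ≤ ((k : ℝ) + 1) * q ^ k := by positivity
    push_cast
    calc q ^ (k + 1 + 1) + ((k : ℝ) + 1 + 1) * q ^ (k + 1)
        ≤ q ^ (k + 1 + 1) + ((k : ℝ) + 1 + 1) * q ^ (k + 1) + ((k : ℝ) + 1) * q ^ k := by linarith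
      _ = (q + 1) * (q ^ (k + 1) + (k + 1) * q ^ k) := by ring
      _ ≤ (q + 1) * (q + 1) ^ (k + 1) := h1
      _ = _ := by ring

/-- bounds for the numerator -/
lemma nS_bd (k : ℕ) (hk : 2 ≤ k) (P e : ℝ) (hP : 2 ≤ P) (he : e = 1 ∨ e = -1) :
    0 < nS k P e ∧ nS k P e ≤ P ^ (k + 1) ∧
      (P - 1) ^ (k + 1) * (1 + (k + 1) / P) - (k + 1) * P ≤ nS k P e := by
  set q := P - 1 with hq
  have hq1 : 1 ≤ q := by linarith
  have hk' : (2 : ℝ) ≤ k := by exact_mod_cast hk
  set r := P⁻¹ with hr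
  have hP0 : 0 < P := by linarith
  have hr0 : 0 < r := inv_pos.2 hP0
  have hqr : q * r = 1 - r := by
    rw [hq, hr, sub_mul, one_mul, mul_inv_cancel₀ hP0.ne']
  have hr2 : r ≤ 1 / 2 := by
    rw [hr, inv_le_comm₀ hP0 (by norm_num)]
    norm_num
    exact hP
  set a := q ^ k with ha
  have haq : q ^ 2 ≤ a := pow_le_pow_right₀ hq1 hk
  have hqq : q ≤ q ^ 2 := by nlinarith
  have hS : nS k P e = q * a + (k + 1) * a * (q * r) + e * q * (1 - (k + 1) * (q * r)) := by
    unfold nS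
    rw [← hq, div_eq_mul_inv, div_eq_mul_inv, ← hr, pow_succ, ← ha]
    ring
  have hpw := pow_bd k (q := q) (by linarith)
  rw [pow_succ q k, ← ha] at hpw
  have hqP : q + 1 = P := by rw [hq]; ring
  rw [hqP] at hpw
  have ha0 : 0 < a := by nlinarith
  have hK : 1 ≤ (k + 1) * (q * r) := by rw [hqr]; nlinarith
  have hK0 : 0 < (k + 1) * (q * r) := by linarith
  have hKr : (k + 1) * (q * r) ≤ k + 1 := by rw [hqr]; nlinarith
  have h1 : a * 1 ≤ a * ((k + 1) * (q * r)) := mul_le_mul_of_nonneg_left hK ha0.le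
  have h2 : q * 1 ≤ q * ((k + 1) * (q * r)) := mul_le_mul_of_nonneg_left hK (by linarith)
  have h3 : q * ((k + 1) * (q * r)) ≤ q * (k + 1) := mul_le_mul_of_nonneg_left hKr (by linarith)
  have h4 : q * ((k + 1) * (q * r)) ≤ a * ((k + 1) * (q * r)) :=
    mul_le_mul_of_nonneg_right (hqq.trans haq) hK0.le
  have h5 : (q ^ 2) * ((k + 1) * r) ≤ a * ((k + 1) * r) :=
    mul_le_mul_of_nonneg_right haq (by positivity)
  have h6 : 0 < q * a := by positivity
  have h7 : (k + 1) * a * (q * r) = (k + 1) * a - a * ((k + 1) * r) := by rw [hqr]; ring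
  have h8 : q * ((k + 1) * (q * r)) = q ^ 2 * ((k + 1) * r) := by ring
  have h9 : 0 ≤ a * ((k + 1) * r) := by positivity
  have hl : (P - 1) ^ (k + 1) * (1 + (k + 1) / P) = q * a + (k + 1) * a * (q * r) := by
    rw [← hq, div_eq_mul_inv, ← hr, pow_succ, ← ha]
    ring
  have h10 : q * (k + 1) ≤ (k + 1) * P := by
    have : q ≤ P := by linarith
    nlinarith
  rw [← hq] at hl
  rw [hS, hl]
  rcases he with h | h
  · subst h
    refine ⟨by nlinarith, ?_, by nlinarith⟩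
    refine le_trans ?_ hpw
    nlinarith
  · subst h
    refine ⟨by nlinarith, ?_, by nlinarith⟩
    refine le_trans ?_ hpw
    nlinarith

lemma wloc_pos (k p : ℕ) (hk : 2 ≤ k) (hp : p.Prime) : 0 < wloc (k + 1) p 0 := by
  have hp0 : (0 : ℝ) < p := by exact_mod_cast hp.pos
  rw [wloc_eq k p hp]
  exact div_pos (nS_bd k hk p _ (by exact_mod_cast hp.two_le) (neg_one_pow_eq_or ℝ _)).1
    (by positivity)

lemma wloc_zero_le (k p : ℕ) (hk : 2 ≤ k) (hp : p.Prime) : wloc (k + 1) p 0 ≤ 1 := by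
  have hp0 : (0 : ℝ) < p := by exact_mod_cast hp.pos
  rw [wloc_eq k p hp, div_le_one (by positivity)]
  exact (nS_bd k hk p _ (by exact_mod_cast hp.two_le) (neg_one_pow_eq_or ℝ _)).2.1

lemma wloc_zero_ge (k p : ℕ) (hk : 2 ≤ k) (hp : p.Prime) :
    1 - wloc (k + 1) p 0 ≤ (((k : ℝ) + 1) ^ 2 + (k + 1)) * (1 / (p : ℝ) ^ 2) := by
  have hp2 : (2 : ℝ) ≤ p := by exact_mod_cast hp.two_le
  have hp0 : (0 : ℝ) < p := by linarith
  have h1 := (nS_bd k hk p _ hp2 (neg_one_pow_eq_or ℝ (k + 1))).2.2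
  set P : ℝ := (p : ℝ) with hP
  have hPk : 0 < P ^ (k + 1) := by positivity
  have h2 : ((P - 1) ^ (k + 1) * (1 + (k + 1) / P) - (k + 1) * P) / P ^ (k + 1) ≤
      wloc (k + 1) p 0 := by
    rw [wloc_eq k p hp]
    exact div_le_div_of_nonneg_right h1 hPk.le
  have h3 : ((P - 1) ^ (k + 1) * (1 + (k + 1) / P) - (k + 1) * P) / P ^ (k + 1) =
      (1 + -(1 / P)) ^ (k + 1) * (1 + (k + 1) * (1 / P)) - (k + 1) * P / P ^ (k + 1) := by
    rw [sub_div]
    congr 1
    have h4 : 1 + -(1 / P) = (P - 1) / P := by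
      field_simp
      ring
    rw [h4, div_pow]
    field_simp
  have hr : 1 / P ≤ 1 / 2 := one_div_le_one_div_of_le (by norm_num) hp2
  have hr0 : 0 < 1 / P := by positivity
  have h5 := one_add_mul_le_pow (a := -(1 / P)) (by linarith) (k + 1)
  push_cast at h5
  have h6 : (1 + ((k : ℝ) + 1) * -(1 / P)) * (1 + (k + 1) * (1 / P)) ≤
      (1 + -(1 / P)) ^ (k + 1) * (1 + (k + 1) * (1 / P)) :=
    mul_le_mul_of_nonneg_right h5 (by positivity)
  have h7 : (1 + ((k : ℝ) + 1) * -(1 / P)) * (1 + (k + 1) * (1 / P)) =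
      1 - ((k : ℝ) + 1) ^ 2 * (1 / P ^ 2) := by
    field_simp
    ring
  have h8 : (k + 1) * P / P ^ (k + 1) ≤ ((k : ℝ) + 1) * (1 / P ^ 2) := by
    have h9 : (k + 1) * P / P ^ (k + 1) = ((k : ℝ) + 1) * (1 / P ^ k) := by
      rw [pow_succ]
      field_simp
    rw [h9]
    refine mul_le_mul_of_nonneg_left ?_ (by positivity)
    exact one_div_le_one_div_of_le (by positivity) (pow_le_pow_right₀ (by linarith) hk)
  rw [h3] at h2
  rw [h7] at h6
  have h10 : (((k : ℝ) + 1) ^ 2 + (k + 1)) * (1 / P ^ 2) =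
      ((k : ℝ) + 1) ^ 2 * (1 / P ^ 2) + ((k : ℝ) + 1) * (1 / P ^ 2) := by ring
  rw [h10]
  linarith

lemma wloc_bd (k p j : ℕ) (hk : 2 ≤ k) (hp : p.Prime) :
    0 ≤ wloc (k + 1) p j ∧ wloc (k + 1) p j ≤ 1 := by
  by_cases hj : j = 0
  · subst hj
    exact ⟨(wloc_pos k p hk hp).le, wloc_zero_le k p hk hp⟩
  · have hp2 : (2 : ℝ) ≤ p := by exact_mod_cast hp.two_le
    have hp0 : (0 : ℝ) < p := by linarith
    have h1 := wloc_zero_le k p hk hp
    have hc1 := cnt_nonneg (k + 1) p (by omega) hp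
    have hc2 := cnt_nonneg k p (by omega) hp
    have hr : 1 / (p : ℝ) ≤ 1 / 2 := one_div_le_one_div_of_le (by norm_num) hp2
    have hA : 0 ≤ ((k + 1 : ℕ) : ℝ) * cnt k p * (1 - 1 / (p : ℝ)) :=
      mul_nonneg (mul_nonneg (Nat.cast_nonneg _) hc2) (by linarith)
    unfold wloc at h1 ⊢
    rw [if_pos rfl] at h1
    rw [if_neg hj]
    simp only [Nat.add_sub_cancel] at h1 ⊢
    have hpk : (0 : ℝ) < (p : ℝ) ^ k := by positivity
    have hpj : (1 : ℝ) ≤ (p : ℝ) ^ j := one_le_pow₀ (by linarith)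
    constructor
    · positivity
    · refine le_trans ?_ h1
      refine div_le_div_of_nonneg_right ?_ hpk.le
      refine (div_le_self hA hpj).trans ?_
      linarith

lemma summable_primes_sq : Summable fun p : Nat.Primes => 1 / ((p : ℕ) : ℝ) ^ 2 :=
  (Real.summable_one_div_nat_pow.2 (by norm_num : 1 < 2)).comp_injective
    Nat.Primes.coe_nat_injective

lemma summable_dev (k E : ℕ) (hk : 2 ≤ k) (hE : 1 ≤ E) :
    Summable fun p : Nat.Primes => wloc (k + 1) p (E.factorization p) - 1 := by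
  refine Summable.of_norm_bounded
    (g := fun p : Nat.Primes => (((k : ℝ) + 1) ^ 2 + (k + 1) + (E : ℝ) ^ 2) *
      (1 / ((p : ℕ) : ℝ) ^ 2)) (summable_primes_sq.mul_left _) ?_
  intro p
  have hp := p.2
  have hp0 : (0 : ℝ) < ((p : ℕ) : ℝ) := by exact_mod_cast hp.pos
  obtain ⟨h0, h1⟩ := wloc_bd k p (E.factorization p) hk hp
  rw [Real.norm_eq_abs, abs_sub_comm, abs_of_nonneg (by linarith)]
  by_cases hd : (p : ℕ) ∣ E
  · have h2 : (((p : ℕ) : ℝ)) ≤ E := by exact_mod_cast Nat.le_of_dvd (by omega) hd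
    have h3 : 1 ≤ (E : ℝ) ^ 2 * (1 / ((p : ℕ) : ℝ) ^ 2) := by
      rw [mul_one_div, one_le_div (by positivity)]
      exact pow_le_pow_left₀ hp0.le h2 2
    have h4 : 0 ≤ (((k : ℝ) + 1) ^ 2 + (k + 1)) * (1 / ((p : ℕ) : ℝ) ^ 2) := by positivity
    calc 1 - wloc (k + 1) p (E.factorization p) ≤ 1 := by linarith
      _ ≤ (((k : ℝ) + 1) ^ 2 + (k + 1)) * (1 / ((p : ℕ) : ℝ) ^ 2) +
          (E : ℝ) ^ 2 * (1 / ((p : ℕ) : ℝ) ^ 2) := by linarith
      _ = _ := by ring
  · rw [Nat.factorization_eq_zero_of_not_dvd hd]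
    refine (wloc_zero_ge k p hk hp).trans ?_
    refine mul_le_mul_of_nonneg_right ?_ (by positivity)
    have : 0 ≤ (E : ℝ) ^ 2 := by positivity
    linarith

lemma multipliable_w (k E : ℕ) (hk : 2 ≤ k) (hE : 1 ≤ E) :
    Multipliable fun p : Nat.Primes => wloc (k + 1) p (E.factorization p) := by
  have h := Real.multipliable_one_add_of_summable (summable_dev k E hk hE)
  refine h.congr fun p => ?_
  ring

lemma wz_eq (n E z : ℕ) : wz n E z =
    ∏ p ∈ (Finset.range (z + 1)).subtype Nat.Prime, wloc n (p : ℕ) (E.factorization (p : ℕ)) := by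
  unfold wz
  rw [Finset.prod_subtype_eq_prod_filter (fun p : ℕ => wloc n p (E.factorization p))]

lemma tendsto_sets : Tendsto (fun z : ℕ => (Finset.range (z + 1)).subtype Nat.Prime) atTop
    atTop := by
  refine tendsto_atTop_finset_of_monotone ?_ ?_
  · intro a b hab p hp
    rw [Finset.mem_subtype, Finset.mem_range] at hp ⊢
    omega
  · intro p
    refine ⟨p, ?_⟩
    rw [Finset.mem_subtype, Finset.mem_range]
    omega

theorem pf_PRD : T_PRD := by
  intro k E hk hE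
  have hm := multipliable_w k E hk hE
  have ht : Tendsto (fun z : ℕ => wz (k + 1) E z) atTop (𝓝 (wt (k + 1) E)) := by
    have h1 := hm.hasProd
    have h2 : Tendsto (fun s : Finset Nat.Primes =>
        ∏ p ∈ s, wloc (k + 1) p (E.factorization p)) atTop (𝓝 (wt (k + 1) E)) := by
      rw [HasProd, SummationFilter.unconditional_filter] at h1
      exact h1
    refine (h2.comp tendsto_sets).congr fun z => ?_
    rw [wz_eq]
    rfl
  refine ⟨hm, ht, ?_, ?_, ?_⟩
  · refine ge_of_tendsto' ht fun z => ?_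
    unfold wz
    refine Finset.prod_nonneg fun p hp => ?_
    exact (wloc_bd k p _ hk (Finset.mem_filter.1 hp).2).1
  · have h1 : ∀ p : Nat.Primes, 0 < wloc (k + 1) p ((1 : ℕ).factorization p) := by
      intro p
      rw [Nat.factorization_one]
      exact wloc_pos k p hk p.2
    have h2 : Summable fun p : Nat.Primes =>
        Real.log (wloc (k + 1) p ((1 : ℕ).factorization p)) := by
      have h3 := Real.summable_log_one_add_of_summable (summable_dev k 1 hk le_rfl)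
      refine h3.congr fun p => ?_
      congr 1
      ring
    unfold wt
    rw [← Real.rexp_tsum_eq_tprod h1 h2]
    exact Real.exp_pos _
  · intro p j hp
    exact ⟨(wloc_bd k p j hk hp).1, (wloc_bd k p j hk hp).2, wloc_pos k p hk hp⟩

end Pool.Agent.H57.EQR
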