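import Pool.Agent.H72.EQQ.Targets2
import Pool.Agent.H57.EQR.PRD

/-!
Row MUH of the board EQQ: the distribution function of the norm under the limit measure is Hoelder
continuous.
-/

set_option autoImplicit false

open MeasureTheory Filter
open scoped Topology ENNReal

namespace Pool.Agent.H57.EQR

open Pool.Agent.H71.EQ Pool.Agent.H72.EQQ
open Pool.Agent.H82.EQ (pz hz)

lemma extR_last {k : ℕ} (z : Fin k → ℝ) : extR z (Fin.last k) = -∑ i, z i := by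
  unfold extR
  rw [Fin.snoc_last]

lemma extR_cast {k : ℕ} (z : Fin k → ℝ) (j : Fin k) : extR z j.castSucc = z j := by
  unfold extR
  rw [Fin.snoc_castSucc]

lemma PR_eq_pz {k : ℕ} (z : Fin k → ℝ) : PR z = pz z := by
  unfold PR pz
  rw [Fin.prod_univ_castSucc, extR_last]
  simp only [extR_cast]
  rw [mul_neg, abs_neg]

lemma norm_extR {k : ℕ} (z : Fin k → ℝ) : ‖extR z‖ = hz z := by
  unfold hz
  refine le_antisymm ?_ ?_
  · rw [pi_norm_le_iff_of_nonneg (le_max_of_le_left (norm_nonneg _))]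
    intro i
    refine Fin.lastCases ?_ (fun j => ?_) i
    · rw [extR_last, norm_neg]
      exact le_max_right _ _
    · rw [extR_cast]
      exact (norm_le_pi_norm z j).trans (le_max_left _ _)
  · refine max_le ?_ ?_
    · rw [pi_norm_le_iff_of_nonneg (norm_nonneg _)]
      intro j
      have := norm_le_pi_norm (extR z) j.castSucc
      rwa [extR_cast] at this
    · have := norm_le_pi_norm (extR z) (Fin.last k)
      rwa [extR_last, norm_neg] at this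

lemma hz_nonneg {k : ℕ} (z : Fin k → ℝ) : 0 ≤ hz z := by
  rw [← norm_extR]
  exact norm_nonneg _

lemma PR_nonneg {k : ℕ} (z : Fin k → ℝ) : 0 ≤ PR z := abs_nonneg _

lemma PR_le {k : ℕ} (z : Fin k → ℝ) : PR z ≤ hz z ^ (k + 1) := by
  unfold PR
  rw [Finset.abs_prod]
  calc ∏ i, |extR z i| ≤ ∏ _i : Fin (k + 1), hz z := by
        refine Finset.prod_le_prod (fun i _ => abs_nonneg _) fun i _ => ?_
        rw [← norm_extR]
        exact norm_le_pi_norm (extR z) i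
    _ = _ := by rw [Finset.prod_const, Finset.card_univ, Fintype.card_fin]

lemma nu_pos (k : ℕ) : 0 < nu k := by
  unfold nu
  positivity

lemma PR_rpow_le {k : ℕ} (z : Fin k → ℝ) : PR z ^ nu k ≤ hz z := by
  have h1 := Real.rpow_le_rpow (PR_nonneg z) (PR_le z) (nu_pos k).le
  refine h1.trans (le_of_eq ?_)
  rw [← Real.rpow_natCast, ← Real.rpow_mul (hz_nonneg z)]
  have : ((k + 1 : ℕ) : ℝ) * nu k = 1 := by
    unfold nu
    push_cast
    field_simp
  rw [this, Real.rpow_one]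

lemma norm_arg {k : ℕ} (E : ℕ) (z : Fin k → ℝ) :
    ‖arg E z‖ = (E : ℝ) ^ nu k * PR z ^ (-nu k) * hz z := by
  have h1 : arg E z = ((E : ℝ) ^ nu k * PR z ^ (-nu k)) • extR z := rfl
  have h2 : 0 ≤ (E : ℝ) ^ nu k * PR z ^ (-nu k) :=
    mul_nonneg (Real.rpow_nonneg (Nat.cast_nonneg _) _) (Real.rpow_nonneg (PR_nonneg z) _)
  rw [h1, norm_smul, Real.norm_of_nonneg h2, norm_extR]

/-- the norm of `arg` in terms of `hz` -/
lemma norm_arg_mul {k : ℕ} {E : ℕ} (hE : 1 ≤ E) {z : Fin k → ℝ} (hz0 : 0 < PR z) :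
    hz z = ‖arg E z‖ / (E : ℝ) ^ nu k * PR z ^ nu k := by
  have hE0 : (0 : ℝ) < E := by exact_mod_cast hE
  have h1 : (0 : ℝ) < (E : ℝ) ^ nu k := Real.rpow_pos_of_pos hE0 _
  have h2 : 0 < PR z ^ nu k := Real.rpow_pos_of_pos hz0 _
  rw [norm_arg, Real.rpow_neg hz0.le]
  field_simp

lemma one_le_norm_arg {k : ℕ} {E : ℕ} (hE : 1 ≤ E) {z : Fin k → ℝ} (hz0 : 0 < PR z) :
    1 ≤ ‖arg E z‖ := by
  have hE1 : (1 : ℝ) ≤ E := by exact_mod_cast hE
  have h1 : (1 : ℝ) ≤ (E : ℝ) ^ nu k := Real.one_le_rpow hE1 (nu_pos k).le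
  have h2 : 0 < PR z ^ nu k := Real.rpow_pos_of_pos hz0 _
  rw [norm_arg, Real.rpow_neg hz0.le]
  calc (1 : ℝ) ≤ (E : ℝ) ^ nu k := h1
    _ = (E : ℝ) ^ nu k * (PR z ^ nu k)⁻¹ * PR z ^ nu k := by field_simp
    _ ≤ _ := mul_le_mul_of_nonneg_left (PR_rpow_le z) (by positivity)

lemma norm_arg_zero {k : ℕ} (E : ℕ) {z : Fin k → ℝ} (hz0 : PR z = 0) : ‖arg E z‖ = 0 := by
  rw [norm_arg, hz0, Real.zero_rpow (neg_ne_zero.2 (nu_pos k).ne')]
  ring

lemma lm_apply (k : ℕ) {A : Set (Fin (k + 1) → ℝ)} (hA : MeasurableSet A) :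
    limitMeasure k A = ∑' E : ℕ, ENNReal.ofReal (wt (k + 1) E * (E : ℝ) ^ (1 - nu k)) *
      volume {z : Fin k → ℝ | PR z ≤ 1 ∧ arg E z ∈ A} := by
  unfold limitMeasure
  rw [Measure.sum_apply _ hA]
  refine tsum_congr fun E => ?_
  rw [Measure.smul_apply, smul_eq_mul, Measure.map_apply (measurable_arg E) hA,
    Measure.restrict_apply ((measurable_arg E) hA)]
  congr 2
  ext z
  constructor
  · rintro ⟨h1, h2⟩
    exact ⟨h2, h1⟩
  · rintro ⟨h1, h2⟩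
    exact ⟨h2, h1⟩

/-- the sum over `E`, small and large `E` -/
lemma tsum_split (w : ℕ → ℝ) (v : ℕ → ℝ≥0∞) (W D Y B1 B2 : ℝ) (hw0 : w 0 = 0)
    (hw : ∀ E, 1 ≤ E → 0 ≤ w E) (hB1 : 0 ≤ B1) (hB2 : 0 ≤ B2)
    (hW : ∀ F : Finset ℕ, (∀ E ∈ F, 1 ≤ E) → ∑ E ∈ F, w E ≤ W)
    (hD : ∀ F : Finset ℕ, (∀ E ∈ F, 1 ≤ E ∧ Y ≤ (E : ℝ)) → ∑ E ∈ F, w E ≤ D)
    (hv1 : ∀ E : ℕ, 1 ≤ E → (E : ℝ) < Y → v E ≤ ENNReal.ofReal B1)
    (hv2 : ∀ E, 1 ≤ E → v E ≤ ENNReal.ofReal B2) :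
    ∑' E : ℕ, ENNReal.ofReal (w E) * v E ≤ ENNReal.ofReal (B1 * W + B2 * D) := by
  rw [ENNReal.tsum_eq_iSup_sum]
  refine iSup_le fun F => ?_
  classical
  have h0 : ∑ E ∈ F, ENNReal.ofReal (w E) * v E =
      ∑ E ∈ F.filter (fun E => 1 ≤ E), ENNReal.ofReal (w E) * v E := by
    symm
    refine Finset.sum_subset (Finset.filter_subset _ _) fun E hE hE' => ?_
    have : E = 0 := by
      by_contra h
      exact hE' (Finset.mem_filter.2 ⟨hE, by omega⟩)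
    rw [this, hw0, ENNReal.ofReal_zero, zero_mul]
  rw [h0, ← Finset.sum_filter_add_sum_filter_not (F.filter fun E => 1 ≤ E)
    (fun E => (E : ℝ) < Y)]
  have key : ∀ (G : Finset ℕ) (B X : ℝ), 0 ≤ B → (∀ E ∈ G, 1 ≤ E ∧ v E ≤ ENNReal.ofReal B) →
      ∑ E ∈ G, w E ≤ X → ∑ E ∈ G, ENNReal.ofReal (w E) * v E ≤ ENNReal.ofReal (B * X) := by
    intro G B X hB hG hX
    calc ∑ E ∈ G, ENNReal.ofReal (w E) * v E ≤ ∑ E ∈ G, ENNReal.ofReal (w E * B) := by
          refine Finset.sum_le_sum fun E hE => ?_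
          rw [ENNReal.ofReal_mul (hw E (hG E hE).1)]
          exact mul_le_mul' le_rfl (hG E hE).2
      _ = ENNReal.ofReal (∑ E ∈ G, w E * B) := by
          rw [ENNReal.ofReal_sum_of_nonneg fun E hE => mul_nonneg (hw E (hG E hE).1) hB]
      _ ≤ ENNReal.ofReal (B * X) := by
          refine ENNReal.ofReal_le_ofReal ?_
          rw [← Finset.sum_mul, mul_comm]
          exact mul_le_mul_of_nonneg_left hX hB
  have hW0 : 0 ≤ W := by simpa using hW ∅ (by simp)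
  have hD0 : 0 ≤ D := by simpa using hD ∅ (by simp)
  rw [ENNReal.ofReal_add (mul_nonneg hB1 hW0) (mul_nonneg hB2 hD0)]
  refine add_le_add (key _ B1 W hB1 ?_ (hW _ ?_)) (key _ B2 D hB2 ?_ (hD _ ?_))
  · intro E hE
    rw [Finset.mem_filter, Finset.mem_filter] at hE
    exact ⟨hE.1.2, hv1 E hE.1.2 hE.2⟩
  · intro E hE
    rw [Finset.mem_filter, Finset.mem_filter] at hE
    exact hE.1.2
  · intro E hE
    rw [Finset.mem_filter, Finset.mem_filter] at hE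
    exact ⟨hE.1.2, hv2 E hE.1.2⟩
  · intro E hE
    rw [Finset.mem_filter, Finset.mem_filter] at hE
    exact ⟨hE.1.2, not_lt.1 hE.2⟩

/-- difference of the inverse powers -/
lemma inv_pow_sub (n : ℕ) {t s : ℝ} (ht : 1 / 2 ≤ t) (hs : 0 < s) :
    (t ^ n)⁻¹ - ((t + s) ^ n)⁻¹ ≤ n * 2 ^ (n + 1) * s := by
  have ht0 : 0 < t := by linarith
  have hx : 0 < t / (t + s) := by positivity
  have h1 : 1 - n * (s / (t + s)) ≤ (t / (t + s)) ^ n := by
    have h2 := one_add_mul_le_pow (a := -(s / (t + s))) (by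
      have : s / (t + s) ≤ 1 := by
        rw [div_le_one (by positivity)]
        linarith
      linarith) n
    have h3 : 1 + -(s / (t + s)) = t / (t + s) := by
      field_simp
      ring
    rw [h3] at h2
    linarith
  have h4 : (t ^ n)⁻¹ - ((t + s) ^ n)⁻¹ = (t ^ n)⁻¹ * (1 - (t / (t + s)) ^ n) := by
    rw [div_pow]
    have : t ^ n ≠ 0 := by positivity
    have : (t + s) ^ n ≠ 0 := by positivity
    field_simp
  have h5 : (t ^ n)⁻¹ ≤ 2 ^ n := by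
    rw [← inv_pow]
    refine pow_le_pow_left₀ (by positivity) ?_ n
    rw [inv_le_comm₀ ht0 (by norm_num)]
    linarith
  have h6 : 1 - (t / (t + s)) ^ n ≤ n * (2 * s) := by
    have h7 : s / (t + s) ≤ 2 * s := by
      rw [div_le_iff₀ (by positivity)]
      nlinarith
    have h8 : (n : ℝ) * (s / (t + s)) ≤ n * (2 * s) :=
      mul_le_mul_of_nonneg_left h7 (Nat.cast_nonneg _)
    linarith
  have h9 : 0 ≤ 1 - (t / (t + s)) ^ n := by
    have : (t / (t + s)) ^ n ≤ 1 := pow_le_one₀ hx.le (by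
      rw [div_le_one (by positivity)]
      linarith)
    linarith
  rw [h4]
  calc (t ^ n)⁻¹ * (1 - (t / (t + s)) ^ n) ≤ 2 ^ n * (n * (2 * s)) :=
        mul_le_mul h5 h6 h9 (by positivity)
    _ = _ := by ring

/-- the layer -/
lemma layer (h1 : T_CSL) (k : ℕ) (hk : 2 ≤ k) : ∃ C : ℝ, 0 < C ∧ ∀ (E : ℕ) (t s : ℝ), 1 ≤ E →
    1 / 2 ≤ t → 0 < s → s ≤ 1 →
    volume {z : Fin k → ℝ | PR z ≤ 1 ∧ arg E z ∈ {y : Fin (k + 1) → ℝ | t < ‖y‖ ∧ ‖y‖ ≤ t + s}} ≤
      ENNReal.ofReal (C * (t + 1) ^ k * Real.sqrt (E * s)) := by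
  obtain ⟨C, hC, h⟩ := h1 k hk
  refine ⟨C * Real.sqrt (((k + 1 : ℕ) : ℝ) * 2 ^ (k + 1 + 1)), by positivity, ?_⟩
  intro E t s hE ht hs hs1
  have ht0 : 0 < t := by linarith
  have hE1 : (1 : ℝ) ≤ E := by exact_mod_cast hE
  have hEn : (1 : ℝ) ≤ (E : ℝ) ^ nu k := Real.one_le_rpow hE1 (nu_pos k).le
  have hEn0 : (0 : ℝ) < (E : ℝ) ^ nu k := by linarith
  have hpow : ((E : ℝ) ^ nu k) ^ (k + 1) = E := by
    rw [← Real.rpow_natCast, ← Real.rpow_mul (by linarith)]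
    have : nu k * ((k + 1 : ℕ) : ℝ) = 1 := by
      unfold nu
      push_cast
      field_simp
    rw [this, Real.rpow_one]
  have h2 := h (t / (E : ℝ) ^ nu k) ((t + s) / (E : ℝ) ^ nu k) (by positivity)
    (div_lt_div_of_pos_right (by linarith) hEn0)
  have hsub : {z : Fin k → ℝ | PR z ≤ 1 ∧
      arg E z ∈ {y : Fin (k + 1) → ℝ | t < ‖y‖ ∧ ‖y‖ ≤ t + s}} ⊆
      {z : Fin k → ℝ | pz z ≤ 1 ∧ t / (E : ℝ) ^ nu k * pz z ^ nu k < hz z ∧
        hz z ≤ (t + s) / (E : ℝ) ^ nu k * pz z ^ nu k} := by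
    rintro z ⟨h3, h4, h5⟩
    have h6 : 0 < PR z := by
      rcases (PR_nonneg z).lt_or_eq with h7 | h7
      · exact h7
      · rw [norm_arg_zero E h7.symm] at h4
        linarith
    have h8 := norm_arg_mul hE h6
    have h9 : 0 < PR z ^ nu k := Real.rpow_pos_of_pos h6 _
    rw [PR_eq_pz] at h3 h8 h9
    refine ⟨h3, ?_, ?_⟩
    · rw [h8]
      exact mul_lt_mul_of_pos_right (div_lt_div_of_pos_right h4 hEn0) h9
    · rw [h8]
      exact mul_le_mul_of_nonneg_right (div_le_div_of_nonneg_right h5 hEn0.le) h9.le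
  refine (measure_mono hsub).trans (h2.trans (ENNReal.ofReal_le_ofReal ?_))
  have e1 : ((t + s) / (E : ℝ) ^ nu k) ^ k ≤ (t + 1) ^ k := by
    refine pow_le_pow_left₀ (by positivity) ?_ k
    refine (div_le_self (by positivity) hEn).trans ?_
    linarith
  have e2 : ((t / (E : ℝ) ^ nu k) ^ (k + 1))⁻¹ - (((t + s) / (E : ℝ) ^ nu k) ^ (k + 1))⁻¹ ≤
      (((k + 1 : ℕ) : ℝ) * 2 ^ (k + 1 + 1)) * (E * s) := by
    have e3 := inv_pow_sub (k + 1) ht hs
    have e4 : ((t / (E : ℝ) ^ nu k) ^ (k + 1))⁻¹ -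
        (((t + s) / (E : ℝ) ^ nu k) ^ (k + 1))⁻¹ =
        E * ((t ^ (k + 1))⁻¹ - ((t + s) ^ (k + 1))⁻¹) := by
      rw [div_pow, div_pow, hpow, inv_div, inv_div]
      ring
    rw [e4]
    calc (E : ℝ) * ((t ^ (k + 1))⁻¹ - ((t + s) ^ (k + 1))⁻¹) ≤
        E * (((k + 1 : ℕ) : ℝ) * 2 ^ (k + 1 + 1) * s) :=
          mul_le_mul_of_nonneg_left e3 (by linarith)
      _ = _ := by ring
  have e5 := Real.sqrt_le_sqrt e2
  rw [Real.sqrt_mul (by positivity)] at e5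
  calc C * ((t + s) / (E : ℝ) ^ nu k) ^ k *
        Real.sqrt (((t / (E : ℝ) ^ nu k) ^ (k + 1))⁻¹ - (((t + s) / (E : ℝ) ^ nu k) ^ (k + 1))⁻¹)
      ≤ C * (t + 1) ^ k *
        (Real.sqrt (((k + 1 : ℕ) : ℝ) * 2 ^ (k + 1 + 1)) * Real.sqrt (E * s)) :=
        mul_le_mul (mul_le_mul_of_nonneg_left e1 hC.le) e5 (Real.sqrt_nonneg _) (by positivity)
    _ = _ := by ring

/-- the tail -/
lemma tail (h2 : T_TLT) (k : ℕ) (hk : 2 ≤ k) : ∃ C : ℝ, 0 < C ∧ ∀ (E : ℕ) (t : ℝ), 1 ≤ E →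
    1 ≤ t → (E : ℝ) ≤ t ^ (((k : ℝ) + 1) / 2) →
    volume {z : Fin k → ℝ | PR z ≤ 1 ∧ t < ‖arg E z‖} ≤
      ENNReal.ofReal (C * t ^ (-(1 / 4) : ℝ)) := by
  obtain ⟨C, hC, h⟩ := h2 k hk
  refine ⟨C, hC, ?_⟩
  intro E t hE ht hEt
  have ht0 : 0 < t := by linarith
  have hE1 : (1 : ℝ) ≤ E := by exact_mod_cast hE
  have hEn : (1 : ℝ) ≤ (E : ℝ) ^ nu k := Real.one_le_rpow hE1 (nu_pos k).le
  have hEn0 : (0 : ℝ) < (E : ℝ) ^ nu k := by linarith
  have hEu : (E : ℝ) ^ nu k ≤ t ^ (1 / 2 : ℝ) := by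
    have h3 := Real.rpow_le_rpow (by linarith) hEt (nu_pos k).le
    rw [← Real.rpow_mul ht0.le] at h3
    have h4 : ((k : ℝ) + 1) / 2 * nu k = 1 / 2 := by
      unfold nu
      field_simp
    rwa [h4] at h3
  have hT : t ^ (1 / 2 : ℝ) ≤ t / (E : ℝ) ^ nu k := by
    rw [le_div_iff₀ hEn0]
    calc t ^ (1 / 2 : ℝ) * (E : ℝ) ^ nu k ≤ t ^ (1 / 2 : ℝ) * t ^ (1 / 2 : ℝ) :=
          mul_le_mul_of_nonneg_left hEu (by positivity)
      _ = t := by
          rw [← Real.rpow_add ht0]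
          norm_num
  have ht2 : 1 ≤ t ^ (1 / 2 : ℝ) := Real.one_le_rpow ht (by norm_num)
  have h5 := h (t / (E : ℝ) ^ nu k) (ht2.trans hT)
  refine (measure_mono ?_).trans (h5.trans (ENNReal.ofReal_le_ofReal ?_))
  · rintro z ⟨h3, h4⟩
    have h6 : 0 < PR z := by
      rcases (PR_nonneg z).lt_or_eq with h7 | h7
      · exact h7
      · rw [norm_arg_zero E h7.symm] at h4
        linarith
    have h8 := norm_arg_mul hE h6
    have h9 : 0 < PR z ^ nu k := Real.rpow_pos_of_pos h6 _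
    rw [PR_eq_pz] at h3 h8 h9
    refine ⟨h3, ?_⟩
    rw [h8]
    exact mul_lt_mul_of_pos_right (div_lt_div_of_pos_right h4 hEn0) h9
  · refine mul_le_mul_of_nonneg_left ?_ hC.le
    have h6 : (t / (E : ℝ) ^ nu k) ^ (-(1 / 2) : ℝ) ≤ (t ^ (1 / 2 : ℝ)) ^ (-(1 / 2) : ℝ) :=
      Real.rpow_le_rpow_of_nonpos (by positivity) hT (by norm_num)
    refine h6.trans (le_of_eq ?_)
    rw [← Real.rpow_mul ht0.le]
    norm_num

theorem pf_MUH (h1 : T_CSL) (h2 : T_TLT) (h3 : T_SEQ) (h4 : T_MEA) (h6 : T_NUL) : T_MUH := by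
  intro k hk
  obtain ⟨c2, C2, hc2, hC2, hseq⟩ := h3 k hk
  obtain ⟨C1, hC1, hlay⟩ := layer h1 k hk
  obtain ⟨C3, hC3, htail⟩ := tail h2 k hk
  obtain ⟨hfin, htot, hpos, -⟩ := h4 k hk
  obtain ⟨w, hw⟩ : ∃ w : ℕ → ℝ, w = fun E => wt (k + 1) E * (E : ℝ) ^ (1 - nu k) := ⟨_, rfl⟩
  have hwE : ∀ E, w E = wt (k + 1) E * (E : ℝ) ^ (1 - nu k) := fun E => by rw [hw]
  have hk0 : (0 : ℝ) < k := by exact_mod_cast (by omega : 0 < k)
  have hk2 : (2 : ℝ) ≤ k := by exact_mod_cast hk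
  have hw0 : w 0 = 0 := by
    rw [hwE]
    have hnu : (1 : ℝ) - nu k ≠ 0 := by
      unfold nu
      have : (1 : ℝ) / ((k : ℝ) + 1) < 1 := by
        rw [div_lt_one (by positivity)]
        linarith
      linarith
    rw [Nat.cast_zero, Real.zero_rpow hnu, mul_zero]
  have hwn : ∀ E, 1 ≤ E → 0 ≤ w E := fun E hE => by
    rw [hwE]
    exact mul_nonneg (pf_PRD k E hk hE).2.2.1 (Real.rpow_nonneg (Nat.cast_nonneg _) _)
  have hW : ∀ F : Finset ℕ, (∀ E ∈ F, 1 ≤ E) → ∑ E ∈ F, w E ≤ C2 := by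
    intro F hF
    have := hseq 1 F le_rfl (fun E hE => by exact_mod_cast hF E hE)
    rw [Real.one_rpow, mul_one] at this
    simp only [hwE]
    exact this
  have hD : ∀ Y : ℝ, 1 ≤ Y → ∀ F : Finset ℕ, (∀ E ∈ F, 1 ≤ E ∧ Y ≤ (E : ℝ)) →
      ∑ E ∈ F, w E ≤ C2 * Y ^ (-c2) := by
    intro Y hY F hF
    simp only [hwE]
    exact hseq Y F hY fun E hE => (hF E hE).2
  -- the volume
  obtain ⟨V0, hV0⟩ : ∃ V0 : ℝ, V0 = volume.real {z : Fin k → ℝ | PR z ≤ 1} := ⟨_, rfl⟩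
  have hV0n : 0 ≤ V0 := by
    rw [hV0]
    exact measureReal_nonneg
  have hVfin : volume {z : Fin k → ℝ | PR z ≤ 1} ≠ ⊤ := by
    intro h
    rw [htot] at hpos
    unfold Measure.real at hpos
    rw [h, ENNReal.toReal_top, zero_mul] at hpos
    exact lt_irrefl _ hpos
  have hVol : ∀ (A : Set (Fin (k + 1) → ℝ)) (E : ℕ),
      volume {z : Fin k → ℝ | PR z ≤ 1 ∧ arg E z ∈ A} ≤ ENNReal.ofReal V0 := by
    intro A E
    rw [hV0]
    unfold Measure.real
    rw [ENNReal.ofReal_toReal hVfin]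
    exact measure_mono fun z hz => hz.1
  obtain ⟨M, hM⟩ : ∃ M : ℝ, M = (limitMeasure k).real Set.univ := ⟨_, rfl⟩
  have hM0 : 0 ≤ M := by
    rw [hM]
    exact measureReal_nonneg
  obtain ⟨c, hc⟩ : ∃ c : ℝ, c = min c2 1 / (32 * k) := ⟨_, rfl⟩
  have hm0 : 0 < min c2 1 := lt_min hc2 one_pos
  have hc0 : 0 < c := by
    rw [hc]
    positivity
  have hcb : ∀ x : ℝ, min c2 1 ≤ 32 * k * x → c ≤ x := by
    intro x hx
    rw [hc, div_le_iff₀ (by positivity)]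
    linarith
  have hmc : min c2 1 ≤ c2 := min_le_left _ _
  have hm1 : min c2 1 ≤ 1 := min_le_right _ _
  have hc1 : c ≤ 1 := hcb 1 (by nlinarith)
  refine ⟨c, 2 * M + C1 * 2 ^ k * C2 + V0 * C2 + C3 * C2 + 1, hc0, by positivity, ?_⟩
  intro t s hs hs1
  have hsx : ∀ x : ℝ, c ≤ x → s ^ x ≤ s ^ c := fun x hx =>
    Real.rpow_le_rpow_of_exponent_ge hs hs1 hx
  have hsc : 0 < s ^ c := Real.rpow_pos_of_pos hs _
  have hmeas : MeasurableSet {y : Fin (k + 1) → ℝ | t < ‖y‖ ∧ ‖y‖ ≤ t + s} :=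
    (measurableSet_lt measurable_const measurable_norm).inter
      (measurableSet_le measurable_norm measurable_const)
  have hbig : ∀ x : ℝ, 0 ≤ x → x ≤ 2 * M + C1 * 2 ^ k * C2 + V0 * C2 + C3 * C2 + 1 →
      ∀ y : ℝ, y ≤ x * s ^ c →
      y ≤ (2 * M + C1 * 2 ^ k * C2 + V0 * C2 + C3 * C2 + 1) * s ^ c := fun x _ hx y hy =>
    hy.trans (mul_le_mul_of_nonneg_right hx hsc.le)
  have g1 : 0 ≤ C1 * 2 ^ k * C2 := by positivity
  have g2 : 0 ≤ V0 * C2 := by positivity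
  have g3 : 0 ≤ C3 * C2 := by positivity
  rcases le_or_gt s (1 / 2) with hs2 | hs2
  swap
  · -- large s
    refine hbig (2 * M) (by positivity) (by linarith) _ ?_
    have e1 : (limitMeasure k).real {y : Fin (k + 1) → ℝ | t < ‖y‖ ∧ ‖y‖ ≤ t + s} ≤ M := by
      rw [hM]
      exact measureReal_mono (Set.subset_univ _)
    have e2 : (1 / 2 : ℝ) ≤ s ^ c := by
      have e3 : (1 / 2 : ℝ) ^ c ≤ s ^ c := Real.rpow_le_rpow (by norm_num) hs2.le hc0.le
      have e4 : (1 / 2 : ℝ) ^ (1 : ℝ) ≤ (1 / 2 : ℝ) ^ c :=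
        Real.rpow_le_rpow_of_exponent_ge (by norm_num) (by norm_num) hc1
      rw [Real.rpow_one] at e4
      exact e4.trans e3
    nlinarith
  -- the real number as a bound
  have hreal : ∀ x : ℝ, 0 ≤ x →
      limitMeasure k {y : Fin (k + 1) → ℝ | t < ‖y‖ ∧ ‖y‖ ≤ t + s} ≤ ENNReal.ofReal x →
      (limitMeasure k).real {y : Fin (k + 1) → ℝ | t < ‖y‖ ∧ ‖y‖ ≤ t + s} ≤ x := fun x hx h =>
    ENNReal.toReal_le_of_le_ofReal hx h
  rcases lt_or_ge t (1 / 2) with ht | ht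
  · -- small t
    refine hbig 0 le_rfl (by positivity) _ ?_
    rw [zero_mul]
    refine hreal 0 le_rfl ?_
    rw [lm_apply k hmeas]
    have h7 := tsum_split w (fun E => volume {z : Fin k → ℝ | PR z ≤ 1 ∧
      arg E z ∈ {y : Fin (k + 1) → ℝ | t < ‖y‖ ∧ ‖y‖ ≤ t + s}}) C2 C2 1 0 0 hw0 hwn le_rfl
      le_rfl hW (fun F hF => hW F fun E hE => (hF E hE).1) ?_ ?_
    · rw [zero_mul, add_zero] at h7
      simpa only [hwE] using h7
    all_goals
      intro E hE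
      try intro _
      rw [ENNReal.ofReal_zero, ← (h6 k (by omega) 0).1]
      refine measure_mono ?_
      rintro z ⟨-, -, h9⟩
      rcases (PR_nonneg z).lt_or_eq with h10 | h10
      · have := one_le_norm_arg hE h10
        linarith
      · exact h10.symm
  -- the parameter
  obtain ⟨T0, hT0⟩ : ∃ T0 : ℝ, T0 = s ^ (-(1 / (8 * k)) : ℝ) := ⟨_, rfl⟩
  have hT01 : 1 ≤ T0 := by
    rw [hT0]
    exact Real.one_le_rpow_of_pos_of_le_one_of_nonpos hs hs1 (by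
      have : (0 : ℝ) < 1 / (8 * k) := by positivity
      linarith)
  rcases le_or_gt t T0 with htT | htT
  · -- the layer
    obtain ⟨Y0, hY0⟩ : ∃ Y0 : ℝ, Y0 = s ^ (-(1 / 4) : ℝ) := ⟨_, rfl⟩
    have hY01 : 1 ≤ Y0 := by
      rw [hY0]
      exact Real.one_le_rpow_of_pos_of_le_one_of_nonpos hs hs1 (by norm_num)
    have h7 := tsum_split w (fun E => volume {z : Fin k → ℝ | PR z ≤ 1 ∧
      arg E z ∈ {y : Fin (k + 1) → ℝ | t < ‖y‖ ∧ ‖y‖ ≤ t + s}}) C2 (C2 * Y0 ^ (-c2)) Y0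
      (C1 * (t + 1) ^ k * Real.sqrt (Y0 * s)) V0 hw0 hwn (by positivity) hV0n hW (hD Y0 hY01) ?_
      (fun E _ => hVol _ E)
    · refine hbig (C1 * 2 ^ k * C2 + V0 * C2) (by positivity) (by linarith) _ ?_
      refine hreal _ (by positivity) ?_
      rw [lm_apply k hmeas]
      refine le_trans (b := ENNReal.ofReal (C1 * (t + 1) ^ k * Real.sqrt (Y0 * s) * C2 +
        V0 * (C2 * Y0 ^ (-c2)))) ?_ (ENNReal.ofReal_le_ofReal ?_)
      · simpa only [hwE] using h7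
      · have e1 : (t + 1) ^ k * Real.sqrt (Y0 * s) ≤ 2 ^ k * s ^ c := by
          have e2 : (t + 1) ^ k ≤ 2 ^ k * s ^ (-(1 / 8) : ℝ) := by
            calc (t + 1) ^ k ≤ (2 * T0) ^ k :=
                  pow_le_pow_left₀ (by linarith) (by linarith) k
              _ = 2 ^ k * s ^ (-(1 / 8) : ℝ) := by
                  rw [mul_pow, hT0, ← Real.rpow_natCast (s ^ _), ← Real.rpow_mul hs.le]
                  congr 2
                  field_simp
          have e3 : Real.sqrt (Y0 * s) = s ^ (3 / 8 : ℝ) := by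
            have : Y0 * s = s ^ (3 / 4 : ℝ) := by
              rw [hY0]
              nth_rewrite 2 [← Real.rpow_one s]
              rw [← Real.rpow_add hs]
              norm_num
            rw [this, Real.sqrt_eq_rpow, ← Real.rpow_mul hs.le]
            norm_num
          rw [e3]
          calc (t + 1) ^ k * s ^ (3 / 8 : ℝ) ≤ 2 ^ k * s ^ (-(1 / 8) : ℝ) * s ^ (3 / 8 : ℝ) :=
                mul_le_mul_of_nonneg_right e2 (by positivity)
            _ = 2 ^ k * s ^ (1 / 4 : ℝ) := by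
                rw [mul_assoc, ← Real.rpow_add hs]
                norm_num
            _ ≤ _ := mul_le_mul_of_nonneg_left (hsx _ (hcb _ (by nlinarith))) (by positivity)
        have e4 : Y0 ^ (-c2) ≤ s ^ c := by
          rw [hY0, ← Real.rpow_mul hs.le]
          refine hsx _ (hcb _ ?_)
          nlinarith
        calc C1 * (t + 1) ^ k * Real.sqrt (Y0 * s) * C2 + V0 * (C2 * Y0 ^ (-c2))
            = C1 * C2 * ((t + 1) ^ k * Real.sqrt (Y0 * s)) + V0 * C2 * Y0 ^ (-c2) := by ring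
          _ ≤ C1 * C2 * (2 ^ k * s ^ c) + V0 * C2 * s ^ c :=
              add_le_add (mul_le_mul_of_nonneg_left e1 (by positivity))
                (mul_le_mul_of_nonneg_left e4 g2)
          _ = _ := by ring
    · intro E hE hEY
      refine (hlay E t s hE ht hs hs1).trans (ENNReal.ofReal_le_ofReal ?_)
      refine mul_le_mul_of_nonneg_left (Real.sqrt_le_sqrt ?_) (by positivity)
      exact mul_le_mul_of_nonneg_right hEY.le hs.le
  · -- the tail
    have ht1 : 1 ≤ t := hT01.trans htT.le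
    have ht0 : 0 < t := by linarith
    obtain ⟨Y1, hY1⟩ : ∃ Y1 : ℝ, Y1 = t ^ (((k : ℝ) + 1) / 2) := ⟨_, rfl⟩
    have hY11 : 1 ≤ Y1 := by
      rw [hY1]
      exact Real.one_le_rpow ht1 (by positivity)
    have h7 := tsum_split w (fun E => volume {z : Fin k → ℝ | PR z ≤ 1 ∧
      arg E z ∈ {y : Fin (k + 1) → ℝ | t < ‖y‖ ∧ ‖y‖ ≤ t + s}}) C2 (C2 * Y1 ^ (-c2)) Y1
      (C3 * t ^ (-(1 / 4) : ℝ)) V0 hw0 hwn (by positivity) hV0n hW (hD Y1 hY11) ?_
      (fun E _ => hVol _ E)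
    · refine hbig (C3 * C2 + V0 * C2) (by positivity) (by linarith) _ ?_
      refine hreal _ (by positivity) ?_
      rw [lm_apply k hmeas]
      refine le_trans (b := ENNReal.ofReal (C3 * t ^ (-(1 / 4) : ℝ) * C2 +
        V0 * (C2 * Y1 ^ (-c2)))) ?_ (ENNReal.ofReal_le_ofReal ?_)
      · simpa only [hwE] using h7
      · have hneg : ∀ x : ℝ, 0 ≤ x → t ^ (-x) ≤ s ^ (1 / (8 * k) * x : ℝ) := by
          intro x hx
          calc t ^ (-x) ≤ T0 ^ (-x) :=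
                Real.rpow_le_rpow_of_nonpos (by linarith) htT.le (by linarith)
            _ = _ := by
                rw [hT0, ← Real.rpow_mul hs.le]
                congr 1
                ring
        have e1 : t ^ (-(1 / 4) : ℝ) ≤ s ^ c := by
          refine (hneg (1 / 4) (by norm_num)).trans (hsx _ (hcb _ ?_))
          have : 32 * (k : ℝ) * (1 / (8 * k) * (1 / 4)) = 1 := by
            field_simp
            norm_num
          rw [this]
          exact hm1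
        have e4 : Y1 ^ (-c2) ≤ s ^ c := by
          rw [hY1, ← Real.rpow_mul ht0.le]
          have e5 : ((k : ℝ) + 1) / 2 * -c2 = -(((k : ℝ) + 1) / 2 * c2) := by ring
          rw [e5]
          refine (hneg _ (by positivity)).trans (hsx _ (hcb _ ?_))
          have : 32 * (k : ℝ) * (1 / (8 * k) * (((k : ℝ) + 1) / 2 * c2)) =
              2 * ((k : ℝ) + 1) * c2 := by
            field_simp
            norm_num
          rw [this]
          nlinarith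
        calc C3 * t ^ (-(1 / 4) : ℝ) * C2 + V0 * (C2 * Y1 ^ (-c2))
            = C3 * C2 * t ^ (-(1 / 4) : ℝ) + V0 * C2 * Y1 ^ (-c2) := by ring
          _ ≤ C3 * C2 * s ^ c + V0 * C2 * s ^ c :=
              add_le_add (mul_le_mul_of_nonneg_left e1 g3) (mul_le_mul_of_nonneg_left e4 g2)
          _ = _ := by ring
    · intro E hE hEY
      refine le_trans (measure_mono ?_) (htail E t hE ht1 (by rw [← hY1]; exact hEY.le))
      rintro z ⟨h8, h9, -⟩
      exact ⟨h8, h9⟩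

end Pool.Agent.H57.EQR
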