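import Pool.Agent.H72.EQQ.Targets
import Pool.Agent.H57.EQR.PRD

/-!
Row PRQ of the board EQQ: the Moebius sum of the densities.
-/

set_option autoImplicit false

open Filter
open scoped Topology

namespace Pool.Agent.H57.EQR

open Pool.Agent.H71.EQ Pool.Agent.H72.EQQ

/-- the primes up to `z` which do not divide `E` -/
def Pz (E z : ℕ) : Finset ℕ := (Finset.range (z + 1)).filter fun p => p.Prime ∧ ¬ p ∣ E

/-- their product -/
def Qz (E z : ℕ) : ℕ := ∏ p ∈ Pz E z, p

lemma mem_Pz {E z p : ℕ} : p ∈ Pz E z ↔ p ≤ z ∧ p.Prime ∧ ¬ p ∣ E := by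
  unfold Pz
  rw [Finset.mem_filter, Finset.mem_range, Nat.lt_succ_iff]

lemma Qz_primeFactors (E z : ℕ) : (Qz E z).primeFactors = Pz E z :=
  Nat.primeFactors_prod fun _ hp => (mem_Pz.1 hp).2.1

lemma Qz_squarefree (E z : ℕ) : Squarefree (Qz E z) := by
  refine Finset.squarefree_prod_of_pairwise_isCoprime (fun p hp q hq hpq => ?_)
    fun p hp => (mem_Pz.1 hp).2.1.squarefree
  simp only [Function.onFun, ← Nat.coprime_iff_isRelPrime]
  exact (Nat.coprime_primes (mem_Pz.1 hp).2.1 (mem_Pz.1 hq).2.1).2 hpq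

/-- the multiplicative function -/
noncomputable def fv (k : ℕ) : ArithmeticFunction ℝ :=
  ArithmeticFunction.prodPrimeFactors fun p => 1 - wloc (k + 1) p 0

lemma fv_apply (k : ℕ) {m : ℕ} (hm : m ≠ 0) :
    fv k m = ∏ p ∈ m.primeFactors, (1 - wloc (k + 1) p 0) :=
  ArithmeticFunction.prodPrimeFactors_apply hm

lemma fv_prime (k : ℕ) {p : ℕ} (hp : p.Prime) : fv k p = 1 - wloc (k + 1) p 0 := by
  rw [fv_apply k hp.ne_zero, hp.primeFactors, Finset.prod_singleton]

/-- the product of the densities at the primes dividing `E` -/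
noncomputable def We (k E : ℕ) : ℝ := ∏ p ∈ E.primeFactors, wloc (k + 1) p (E.factorization p)

lemma We_bd (k E : ℕ) (hk : 2 ≤ k) : 0 ≤ We k E ∧ We k E ≤ 1 := by
  unfold We
  constructor
  · exact Finset.prod_nonneg fun p hp => (wloc_bd k p _ hk (Nat.prime_of_mem_primeFactors hp)).1
  · exact Finset.prod_le_one
      (fun p hp => (wloc_bd k p _ hk (Nat.prime_of_mem_primeFactors hp)).1)
      (fun p hp => (wloc_bd k p _ hk (Nat.prime_of_mem_primeFactors hp)).2)

lemma wz_split (k E z : ℕ) (hE : 1 ≤ E) (hz : E ≤ z) :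
    wz (k + 1) E z = We k E * ∑ m ∈ (Qz E z).divisors,
      (ArithmeticFunction.moebius m : ℝ) * fv k m := by
  have h1 := ArithmeticFunction.IsMultiplicative.prodPrimeFactors_one_sub_of_squarefree (fv k)
    (ArithmeticFunction.IsMultiplicative.prodPrimeFactors _) (Qz_squarefree E z)
  rw [← h1, Qz_primeFactors]
  unfold wz We
  rw [← Finset.prod_filter_mul_prod_filter_not
    ((Finset.range (z + 1)).filter Nat.Prime) (fun p => p ∣ E)]
  congr 1
  · refine Finset.prod_congr ?_ fun _ _ => rfl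
    ext p
    rw [Finset.mem_filter, Finset.mem_filter, Finset.mem_range, Nat.mem_primeFactors]
    constructor
    · rintro ⟨⟨h2, h3⟩, h4⟩
      exact ⟨h3, h4, by omega⟩
    · rintro ⟨h2, h3, h4⟩
      have := Nat.le_of_dvd (by omega) h3
      exact ⟨⟨by omega, h2⟩, h3⟩
  · refine Finset.prod_congr ?_ ?_
    · ext p
      rw [Finset.mem_filter, Finset.mem_filter, Finset.mem_range, mem_Pz]
      constructor
      · rintro ⟨⟨h2, h3⟩, h4⟩
        exact ⟨by omega, h3, h4⟩
      · rintro ⟨h2, h3, h4⟩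
        exact ⟨⟨by omega, h3⟩, h4⟩
    · intro p hp
      have h2 := (mem_Pz.1 hp).2
      rw [fv_prime k h2.1, Nat.factorization_eq_zero_of_not_dvd h2.2]
      ring

/-- the moduli at most `N` among the divisors -/
lemma div_filter (E N z : ℕ) (hN : N ≤ z) :
    (Qz E z).divisors.filter (fun m => ¬ N < m) = Md E N := by
  ext m
  unfold Md
  rw [Finset.mem_filter, Finset.mem_filter, Finset.mem_Icc, Nat.mem_divisors]
  constructor
  · rintro ⟨⟨h1, h2⟩, h3⟩
    have hm0 : m ≠ 0 := fun h => h2 (Nat.eq_zero_of_zero_dvd (h ▸ h1))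
    refine ⟨⟨by omega, by omega⟩, (Qz_squarefree E z).squarefree_of_dvd h1, ?_⟩
    refine Nat.Coprime.symm (Nat.coprime_of_dvd fun p hp hpE hpm => ?_)
    have h4 : p ∈ (Qz E z).primeFactors :=
      Nat.mem_primeFactors.2 ⟨hp, hpm.trans h1, h2⟩
    rw [Qz_primeFactors] at h4
    exact (mem_Pz.1 h4).2.2 hpE
  · rintro ⟨⟨h1, h2⟩, h3, h4⟩
    refine ⟨⟨?_, (Qz_squarefree E z).ne_zero⟩, by omega⟩
    rw [← Nat.prod_primeFactors_of_squarefree h3]
    refine Finset.prod_dvd_prod_of_subset _ _ _ fun p hp => ?_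
    obtain ⟨h5, h6, h7⟩ := Nat.mem_primeFactors.1 hp
    have h8 := Nat.le_of_dvd (by omega) h6
    refine mem_Pz.2 ⟨by omega, h5, fun h9 => ?_⟩
    have h10 := Nat.dvd_gcd h6 h9
    rw [h4] at h10
    exact h5.one_lt.ne' (Nat.dvd_one.1 h10)

lemma bd_eq (k E : ℕ) {m : ℕ} (hm : m ≠ 0) : bd k E m = We k E * fv k m := by
  rw [fv_apply k hm]
  rfl

lemma fv_bd (k : ℕ) (hk : 2 ≤ k) {m : ℕ} (hm : Squarefree m) :
    0 ≤ fv k m ∧ fv k m ≤ (((k : ℝ) + 1) ^ 2 + (k + 1)) ^ m.primeFactors.card *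
      (m : ℝ) ^ (-(4 / 3) : ℝ) := by
  have hm0 := hm.ne_zero
  have hm1 : (1 : ℝ) ≤ m := by exact_mod_cast Nat.one_le_iff_ne_zero.2 hm0
  rw [fv_apply k hm0]
  have h0 : ∀ p ∈ m.primeFactors, 0 ≤ 1 - wloc (k + 1) p 0 := fun p hp => by
    have := wloc_zero_le k p hk (Nat.prime_of_mem_primeFactors hp)
    linarith
  refine ⟨Finset.prod_nonneg h0, ?_⟩
  have h1 : ∏ p ∈ m.primeFactors, (1 - wloc (k + 1) p 0) ≤
      ∏ p ∈ m.primeFactors, ((((k : ℝ) + 1) ^ 2 + (k + 1)) * (1 / (p : ℝ) ^ 2)) :=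
    Finset.prod_le_prod h0 fun p hp => wloc_zero_ge k p hk (Nat.prime_of_mem_primeFactors hp)
  refine h1.trans ?_
  rw [Finset.prod_mul_distrib, Finset.prod_const]
  refine mul_le_mul_of_nonneg_left ?_ (by positivity)
  have h2 : ∏ p ∈ m.primeFactors, (1 / (p : ℝ) ^ 2) = 1 / (m : ℝ) ^ 2 := by
    have h3 : (m : ℝ) = ∏ p ∈ m.primeFactors, (p : ℝ) := by
      have h4 := congrArg (Nat.cast : ℕ → ℝ) (Nat.prod_primeFactors_of_squarefree hm)
      rw [Nat.cast_prod] at h4
      exact h4.symm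
    simp only [one_div]
    rw [Finset.prod_inv_distrib, Finset.prod_pow, ← h3]
  rw [h2, one_div, ← Real.rpow_natCast, ← Real.rpow_neg (by linarith)]
  refine Real.rpow_le_rpow_of_exponent_le hm1 ?_
  norm_num

theorem pf_PRQ (h2 : T_SMA) : T_PRQ := by
  intro k hk
  obtain ⟨C, hC, hS⟩ := h2 (((k : ℝ) + 1) ^ 2 + (k + 1)) (by positivity)
  refine ⟨C, hC, ?_⟩
  intro E N hE hN
  have hN1 : (1 : ℝ) ≤ N := by exact_mod_cast hN
  have key : ∀ z : ℕ, max E N ≤ z →
      |∑ m ∈ Md E N, (ArithmeticFunction.moebius m : ℝ) * bd k E m - wz (k + 1) E z| ≤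
        C * (N : ℝ) ^ (-(1 / 4) : ℝ) := by
    intro z hz
    have hEz : E ≤ z := (le_max_left _ _).trans hz
    have hNz : N ≤ z := (le_max_right _ _).trans hz
    obtain ⟨hW0, hW1⟩ := We_bd k E hk
    have e1 : ∑ m ∈ Md E N, (ArithmeticFunction.moebius m : ℝ) * bd k E m =
        We k E * ∑ m ∈ Md E N, (ArithmeticFunction.moebius m : ℝ) * fv k m := by
      rw [Finset.mul_sum]
      refine Finset.sum_congr rfl fun m hm => ?_
      have hm0 : m ≠ 0 := by
        unfold Md at hm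
        rw [Finset.mem_filter, Finset.mem_Icc] at hm
        omega
      rw [bd_eq k E hm0]
      ring
    rw [e1, wz_split k E z hE hEz,
      ← Finset.sum_filter_add_sum_filter_not (Qz E z).divisors (fun m => N < m),
      div_filter E N z hNz]
    have e2 : ∀ a b : ℝ, We k E * b - We k E * (a + b) = -(We k E * a) := fun a b => by ring
    rw [e2, abs_neg, abs_mul, abs_of_nonneg hW0]
    have hsq : ∀ m ∈ (Qz E z).divisors.filter (fun m => N < m),
        Squarefree m ∧ (N : ℝ) < (m : ℝ) := by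
      intro m hm
      rw [Finset.mem_filter, Nat.mem_divisors] at hm
      exact ⟨(Qz_squarefree E z).squarefree_of_dvd hm.1.1, by exact_mod_cast hm.2⟩
    have e3 : |∑ m ∈ (Qz E z).divisors.filter (fun m => N < m),
        (ArithmeticFunction.moebius m : ℝ) * fv k m| ≤ C * (N : ℝ) ^ (-(1 / 4) : ℝ) := by
      refine (Finset.abs_sum_le_sum_abs _ _).trans (le_trans ?_ (hS N _ hN1 hsq))
      refine Finset.sum_le_sum fun m hm => ?_
      obtain ⟨h5, h6⟩ := fv_bd k hk (hsq m hm).1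
      rw [abs_mul, abs_of_nonneg h5]
      have h7 : |(ArithmeticFunction.moebius m : ℝ)| ≤ 1 := by
        have := ArithmeticFunction.abs_moebius_le_one (n := m)
        exact_mod_cast this
      calc |(ArithmeticFunction.moebius m : ℝ)| * fv k m ≤ 1 * fv k m :=
            mul_le_mul_of_nonneg_right h7 h5
        _ ≤ _ := by rw [one_mul]; exact h6
    calc We k E * _ ≤ 1 * _ := mul_le_mul_of_nonneg_right hW1 (abs_nonneg _)
      _ ≤ _ := by rw [one_mul]; exact e3
  have ht := (pf_PRD k E hk hE).2.1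
  have h3 : Tendsto (fun z : ℕ =>
      |∑ m ∈ Md E N, (ArithmeticFunction.moebius m : ℝ) * bd k E m - wz (k + 1) E z|) atTop
      (𝓝 |∑ m ∈ Md E N, (ArithmeticFunction.moebius m : ℝ) * bd k E m - wt (k + 1) E|) :=
    (tendsto_const_nhds.sub ht).abs
  refine le_of_tendsto h3 ?_
  filter_upwards [eventually_ge_atTop (max E N)] with z hz
  exact key z hz

end Pool.Agent.H57.EQR
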